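import Mathlib

set_option autoImplicit false

/-!
Pair systems (MP_a46c6f_co): two circuits `P = s ∪ a` and `R = s ∪ b` through the same matching
edges `v, s v`; the arcs of `P` in `A0` are attached to the hub `l`, the arcs of `R` in `A2` are
attached to the hub `r`; the hubs are joined by the edge `e`.
-/

namespace Pool.Agent.H57.PSys

/-- Two circuits `P = s ∪ a`, `R = s ∪ b` through the same matching edges, with attached arcs. -/
structure Sys (W : Type*) where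
  s : W → W
  a : W → W
  b : W → W
  A0 : W → Prop
  A2 : W → Prop
  ss : ∀ v, s (s v) = v
  sn : ∀ v, s v ≠ v
  aa : ∀ v, a (a v) = v
  an : ∀ v, a v ≠ v
  bb : ∀ v, b (b v) = v
  bn : ∀ v, b v ≠ v
  hA0 : ∀ v, A0 (a v) ↔ A0 v
  hA2 : ∀ v, A2 (b v) ↔ A2 v
  /-- `P` is one circuit -/
  cP : ∀ U : W → Prop, (∀ v, U v → U (s v)) → (∀ v, U v → U (a v)) → (∃ v, U v) → ∀ v, U v
  /-- `R` is one circuit -/
  cR : ∀ U : W → Prop, (∀ v, U v → U (s v)) → (∀ v, U v → U (b v)) → (∃ v, U v) → ∀ v, U v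

/-- `ka v`, `kb v`: the arc of `P`, of `R` at `v` is used; the used arcs and their matching edges form
an alternating set (a disjoint union of alternating circuits). -/
structure Alt {W : Type*} (S : Sys W) (ka kb : W → Prop) : Prop where
  ha : ∀ v, ka (S.a v) ↔ ka v
  hb : ∀ v, kb (S.b v) ↔ kb v
  one : ∀ v, ¬ (ka v ∧ kb v)
  hs : ∀ v, (ka (S.s v) ∨ kb (S.s v)) ↔ (ka v ∨ kb v)

/-- The removal of the used arcs leaves a matching bridge: `u v` is the side of `v`, `l` and `r` are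
the sides of the hubs. -/
def Nonrem {W : Type*} (S : Sys W) (ka kb : W → Prop) : Prop :=
  ∃ (u : W → ZMod 2) (l r : ZMod 2),
    (∀ v, ¬ ka v → u (S.a v) = u v ∧ (S.A0 v → u v = l)) ∧
    (∀ v, ¬ kb v → u (S.b v) = u v ∧ (S.A2 v → u v = r)) ∧
    ((l ≠ r ∧ ∀ v, u (S.s v) = u v) ∨
      (l = r ∧ ∃ g, ¬ ka g ∧ ¬ kb g ∧ u (S.s g) ≠ u g ∧ ∀ v, v ≠ g → v ≠ S.s g → u (S.s v) = u v))

end Pool.Agent.H57.PSys
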