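import Mathlib

set_option autoImplicit false

/-!
Two involutions `ν` (without fixed points) and `τ` on a finite set: the orbit of a fixed point of `τ`
contains exactly one other fixed point of `τ`.
-/

namespace Pool.Agent.H57.PSys

/-- `y` is in the orbit of `x` under `ν`, `τ`. -/
def Orb {X : Type*} (ν τ : X → X) (x y : X) : Prop :=
  ∀ U : X → Prop, (∀ z, U z → U (ν z)) → (∀ z, U z → U (τ z)) → U x → U y

theorem Orb.refl {X : Type*} (ν τ : X → X) (x : X) : Orb ν τ x x := fun _ _ _ h => h

theorem Orb.trans {X : Type*} {ν τ : X → X} {x y z : X} (h1 : Orb ν τ x y) (h2 : Orb ν τ y z) :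
    Orb ν τ x z := fun U a b h => h2 U a b (h1 U a b h)

theorem Orb.nu {X : Type*} {ν τ : X → X} {x y : X} (h1 : Orb ν τ x y) : Orb ν τ x (ν y) :=
  fun U a b h => a _ (h1 U a b h)

theorem Orb.tau {X : Type*} {ν τ : X → X} {x y : X} (h1 : Orb ν τ x y) : Orb ν τ x (τ y) :=
  fun U a b h => b _ (h1 U a b h)

theorem Orb.symm {X : Type*} {ν τ : X → X} (hν : ∀ x, ν (ν x) = x) (hτ : ∀ x, τ (τ x) = x)
    {x y : X} (h1 : Orb ν τ x y) : Orb ν τ y x := by
  apply h1 (fun z => Orb ν τ z x)
  · intro z hz
    have h2 : Orb ν τ (ν z) z := by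
      have := (Orb.refl ν τ (ν z)).nu
      rwa [hν] at this
    exact h2.trans hz
  · intro z hz
    have h2 : Orb ν τ (τ z) z := by
      have := (Orb.refl ν τ (τ z)).tau
      rwa [hτ] at this
    exact h2.trans hz
  · exact Orb.refl ν τ x

theorem first_ret {X : Type*} [Finite X] (ν τ : X → X) (hν : ∀ x, ν (ν x) = x)
    (hn : ∀ x, ν x ≠ x) (hτ : ∀ x, τ (τ x) = x) (v : X) (hv : τ v = v) :
    ∃ w, τ w = w ∧ w ≠ v ∧ Orb ν τ v w ∧ ∀ z, τ z = z → Orb ν τ v z → z = v ∨ z = w := by
  classical
  have : Fintype X := Fintype.ofFinite X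
  set π : X → X := fun x => τ (ν x) with hπ
  set ρ : X → X := fun x => ν (τ x) with hρ
  have h1 : ∀ x, ρ (π x) = x := fun x => by simp [hπ, hρ, hν, hτ]
  have h2 : ∀ x, π (ρ x) = x := fun x => by simp [hπ, hρ, hν, hτ]
  have hinj : Function.Injective π := Function.LeftInverse.injective h1
  set N := Function.minimalPeriod π v with hN
  have hper : v ∈ Function.periodicPts π := by
    have hf : π^[(Fintype.card X).factorial] v = v := by
      have hb : Function.Bijective π := Finite.injective_iff_bijective.1 hinj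
      set e := Equiv.ofBijective π hb with he
      have h3 : e ^ (Fintype.card X).factorial = 1 := by
        rw [← Fintype.card_perm]
        exact pow_card_eq_one
      have h4 : ∀ k (x : X), (e ^ k) x = π^[k] x := by
        intro k
        induction k with
        | zero => intro x; rfl
        | succ k ih =>
          intro x
          rw [pow_succ, Equiv.Perm.mul_apply, ih, Function.iterate_succ_apply]
          rfl
      rw [← h4, h3]
      rfl
    exact ⟨_, Nat.factorial_pos _, hf⟩
  have hNpos : 0 < N := Function.minimalPeriod_pos_of_mem_periodicPts hper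
  have hNv : π^[N] v = v := Function.iterate_minimalPeriod
  have hdvd : ∀ k, π^[k] v = v ↔ N ∣ k := fun k => Function.isPeriodicPt_iff_minimalPeriod_dvd
  -- τ (π^k v) = ρ^k v, ν (π^k v) = ρ^(k+1) v
  have hτk : ∀ k, τ (π^[k] v) = ρ^[k] v := by
    intro k
    induction k with
    | zero => simpa using hv
    | succ k ih =>
      rw [Function.iterate_succ_apply', Function.iterate_succ_apply', ← ih]
      simp [hπ, hρ, hτ]
  have hνk : ∀ k, ν (π^[k] v) = ρ^[k+1] v := by
    intro k
    rw [Function.iterate_succ_apply', ← hτk]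
    simp [hρ, hτ]
  have hcan : ∀ k x, π^[k] (ρ^[k] x) = x := fun k => (Function.LeftInverse.iterate h2 k)
  have hcan' : ∀ k x, ρ^[k] (π^[k] x) = x := fun k => (Function.LeftInverse.iterate h1 k)
  -- ρ^k v = π^(N-k) v
  have hρN : ∀ k, k ≤ N → ρ^[k] v = π^[N - k] v := by
    intro k hk
    have h5 : π^[k] (π^[N - k] v) = v := by
      rw [← Function.iterate_add_apply, Nat.add_sub_cancel' hk, hNv]
    have h6 := hcan' k (π^[N - k] v)
    rw [h5] at h6
    exact h6
  have hmod : ∀ k, π^[k] v = π^[k % N] v := by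
    intro k
    conv_lhs => rw [← Nat.mod_add_div k N]
    rw [Function.iterate_add_apply]
    congr 1
    rw [Function.iterate_mul]
    have : ∀ j, (π^[N])^[j] v = v := by
      intro j
      induction j with
      | zero => rfl
      | succ j ih => rw [Function.iterate_succ_apply', ih, hNv]
    exact this _
  have hdouble : ∀ k, k ≤ N → τ (π^[k] v) = π^[k] v → N ∣ 2 * k := by
    intro k hk h7
    rw [hτk] at h7
    rw [← hdvd, two_mul, Function.iterate_add_apply, ← h7]
    exact hcan k v
  -- N is even
  have hNe : ∃ m, N = 2 * m := by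
    rcases Nat.even_or_odd N with h8 | ⟨m, hm⟩
    · obtain ⟨m, hm⟩ := h8
      exact ⟨m, by omega⟩
    · exfalso
      apply hn (π^[m] v)
      rw [hνk, hρN (m+1) (by omega)]
      congr 2
      omega
  obtain ⟨m, hm⟩ := hNe
  have hm0 : 0 < m := by omega
  refine ⟨π^[m] v, ?_, ?_, ?_, ?_⟩
  · rw [hτk, hρN m (by omega)]
    congr 2
    omega
  · intro h9
    have := (hdvd m).1 h9
    have := Nat.le_of_dvd hm0 this
    omega
  · intro U hU1 hU2 hU3
    have : ∀ k, U (π^[k] v) := by
      intro k
      induction k with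
      | zero => exact hU3
      | succ k ih =>
        rw [Function.iterate_succ_apply']
        exact hU2 _ (hU1 _ ih)
    exact this m
  · intro z hz hvz
    have h10 : ∃ k, k < N ∧ z = π^[k] v := by
      apply hvz (fun z => ∃ k, k < N ∧ z = π^[k] v)
      · rintro z ⟨k, hk, rfl⟩
        rw [hνk, hρN (k+1) hk]
        exact ⟨N - (k + 1), by omega, rfl⟩
      · rintro z ⟨k, hk, rfl⟩
        rw [hτk, hρN k hk.le]
        refine ⟨(N - k) % N, Nat.mod_lt _ hNpos, ?_⟩
        rw [← hmod]
      · exact ⟨0, hNpos, rfl⟩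
    obtain ⟨k, hk, rfl⟩ := h10
    have h11 := hdouble k hk.le hz
    rw [hm] at h11
    have h12 : m ∣ k := Nat.dvd_of_mul_dvd_mul_left (by norm_num) h11
    obtain ⟨j, rfl⟩ := h12
    have h13 : j < 2 := by
      by_contra hj
      have : m * 2 ≤ m * j := Nat.mul_le_mul_left m (by omega)
      omega
    interval_cases j
    · left; simp
    · right; simp

end Pool.Agent.H57.PSys
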