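import Mathlib
import Pool.Agent.H77.GC.Chain
import Pool.Agent.H57.PSys.Defs
import Pool.Agent.H57.PSys.FirstRet

set_option autoImplicit false

/-!
The arcs of a member of the chain, in the language of `ChainCol`. The vertex `x i` is `(i, false)`,
the vertex `y (p i)` is `(i, true)`.
-/

namespace Pool.Agent.H57.PSys

open Pool.Agent.H64.Pent Pool.Agent.H77.GC

/-- vertices -/
abbrev Vt (n : ℕ) := ZMod n × Bool

section basic
variable {n : ℕ} (p : Equiv.Perm (ZMod n)) (c d : ZMod n → ℕ)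

/-- next vertex on the circle -/
def up (v : Vt n) : Vt n := if v.2 then (p.symm (p v.1 + 1), true) else (v.1 + 1, false)
/-- previous vertex on the circle -/
def dn (v : Vt n) : Vt n := if v.2 then (p.symm (p v.1 - 1), true) else (v.1 - 1, false)
/-- member through the edge `v, up v` -/
def l2 (v : Vt n) : ℕ := if v.2 then d (p v.1) else c v.1
/-- member through the edge `dn v, v` -/
def l1 (v : Vt n) : ℕ := if v.2 then d (p v.1 - 1) else c (v.1 - 1)
/-- the other end of the matching edge -/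
def sg (v : Vt n) : Vt n := (v.1, !v.2)
/-- the smaller one of the two members at `v` -/
def lv (v : Vt n) : ℕ := min (l1 p c d v) (l2 p c d v)

variable {p c d}

@[simp] theorem up_dn (v : Vt n) : up p (dn p v) = v := by
  rcases v with ⟨i, _ | _⟩ <;> simp [up, dn]
@[simp] theorem dn_up (v : Vt n) : dn p (up p v) = v := by
  rcases v with ⟨i, _ | _⟩ <;> simp [up, dn]
@[simp] theorem l1_up (v : Vt n) : l1 p c d (up p v) = l2 p c d v := by
  rcases v with ⟨i, _ | _⟩ <;> simp [up, l1, l2]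
@[simp] theorem l2_dn (v : Vt n) : l2 p c d (dn p v) = l1 p c d v := by
  rcases v with ⟨i, _ | _⟩ <;> simp [dn, l1, l2]
@[simp] theorem sg_sg (v : Vt n) : sg (sg v) = v := by
  rcases v with ⟨i, _ | _⟩ <;> simp [sg]
theorem sg_ne (v : Vt n) : sg v ≠ v := by
  rcases v with ⟨i, _ | _⟩ <;> simp [sg]
@[simp] theorem sg_fst (v : Vt n) : (sg v).1 = v.1 := rfl
@[simp] theorem up_snd (v : Vt n) : (up p v).2 = v.2 := by
  rcases v with ⟨i, _ | _⟩ <;> simp [up]
@[simp] theorem dn_snd (v : Vt n) : (dn p v).2 = v.2 := by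
  rcases v with ⟨i, _ | _⟩ <;> simp [dn]

theorem one_ne (hn : 3 ≤ n) : (1 : ZMod n) ≠ 0 := by
  intro h
  have h2 : ((1 : ℕ) : ZMod n) = 0 := by simpa using h
  rw [ZMod.natCast_eq_zero_iff] at h2
  exact absurd (Nat.le_of_dvd (by norm_num) h2) (by omega)

theorem two_ne (hn : 3 ≤ n) : (1 : ZMod n) + 1 ≠ 0 := by
  intro h
  have h2 : ((2 : ℕ) : ZMod n) = 0 := by push_cast; rw [← h]; ring
  rw [ZMod.natCast_eq_zero_iff] at h2
  exact absurd (Nat.le_of_dvd (by norm_num) h2) (by omega)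

theorem up_fst_ne (hn : 3 ≤ n) (v : Vt n) : (up p v).1 ≠ v.1 := by
  rcases v with ⟨i, _ | _⟩
  · simpa [up] using one_ne hn
  · intro h
    have h2 : p (p.symm (p i + 1)) = p i := by
      have : (p.symm (p i + 1)) = i := by simpa [up] using h
      rw [this]
    rw [Equiv.apply_symm_apply] at h2
    exact one_ne hn (by simpa using h2)

theorem dn_fst_ne (hn : 3 ≤ n) (v : Vt n) : (dn p v).1 ≠ v.1 := by
  intro h
  have := up_fst_ne (p := p) hn (dn p v)
  rw [up_dn] at this
  exact this h.symm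

theorem upup_ne (hn : 3 ≤ n) (v : Vt n) : up p (up p v) ≠ v := by
  rcases v with ⟨i, _ | _⟩
  · intro h
    have h2 : i + 1 + 1 = i := by simpa [up] using congrArg Prod.fst h
    apply two_ne hn
    rw [add_assoc] at h2
    simpa using h2
  · intro h
    have h2 : p.symm (p i + 1 + 1) = i := by simpa [up] using congrArg Prod.fst h
    have h3 : p i + 1 + 1 = p i := by
      have h4 := congrArg p h2
      rwa [Equiv.apply_symm_apply] at h4
    apply two_ne hn
    rw [add_assoc] at h3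
    simpa using h3

theorem dndn_ne (hn : 3 ≤ n) (v : Vt n) : dn p (dn p v) ≠ v := by
  intro h
  apply upup_ne (p := p) hn v
  conv_lhs => rw [← h]
  simp

end basic

section chain
variable {n : ℕ} {p : Equiv.Perm (ZMod n)} {e : ZMod n} {m : ℕ} {c d : ZMod n → ℕ}

theorem loc' (H : ChainCol p e m c d) (v : Vt n) (hv : v.1 ≠ e) :
    (l1 p c d v = lv p c d v ∧ l2 p c d v = lv p c d v + 1 ∨
      l1 p c d v = lv p c d v + 1 ∧ l2 p c d v = lv p c d v) ∧
    lv p c d (sg v) = lv p c d v ∧ lv p c d v < m := by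
  obtain ⟨k, hk, h1, h2⟩ := H.loc v.1 hv
  rcases v with ⟨i, _ | _⟩
  · simp only [lv, l1, l2, sg, Bool.not_false, if_true, Bool.false_eq_true, if_false] at *
    rcases h1 with h1 | h1 <;> rcases h2 with h2 | h2 <;> rw [h1.1, h1.2, h2.1, h2.2] <;>
      simp [hk]
  · simp only [lv, l1, l2, sg, Bool.not_true, if_true, Bool.false_eq_true, if_false] at *
    rcases h1 with h1 | h1 <;> rcases h2 with h2 | h2 <;> rw [h1.1, h1.2, h2.1, h2.2] <;>
      simp [hk]

theorem lv_sg (H : ChainCol p e m c d) (v : Vt n) (hv : v.1 ≠ e) :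
    lv p c d (sg v) = lv p c d v := (loc' H v hv).2.1

/-- at a vertex of the edge `e` both edges are in the same member -/
theorem l1_e (H : ChainCol p e m c d) (v : Vt n) (hv : v.1 = e) :
    l1 p c d v = l2 p c d v ∧ l2 p c d v = if v.2 then m else 0 := by
  rcases v with ⟨i, _ | _⟩
  · simp only at hv
    subst hv
    simp [l1, l2, H.cx.1, H.cx.2]
  · simp only at hv
    subst hv
    simp [l1, l2, H.cy.1, H.cy.2]

variable (p e c d)

/-- the vertices other than the ends of `e` on member `k` -/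
abbrev Xt (k : ℕ) := {v : Vt n // v.1 ≠ e ∧ (lv p c d v = k ∨ lv p c d v + 1 = k)}

/-- the ends of the matching edges of level `j` -/
abbrev Wt (j : ℕ) := {v : Vt n // v.1 ≠ e ∧ lv p c d v = j}

/-- the level `k` neighbour -/
def nb (k : ℕ) (v : Vt n) : Vt n := if l2 p c d v = k then up p v else dn p v

/-- the level `k` neighbour, jumping over the ends of `e` -/
def nuf (k : ℕ) (v : Vt n) : Vt n :=
  if l2 p c d v = k then (if (up p v).1 = e then up p (up p v) else up p v)
  else (if (dn p v).1 = e then dn p (dn p v) else dn p v)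

variable {p e c d}

theorem lev_cases (H : ChainCol p e m c d) {k : ℕ} (v : Vt n) (h1 : v.1 ≠ e)
    (h2 : lv p c d v = k ∨ lv p c d v + 1 = k) :
    (l2 p c d v = k ∧ l1 p c d v ≠ k) ∨ (l1 p c d v = k ∧ l2 p c d v ≠ k) := by
  have := (loc' H v h1).1
  omega

theorem mem_of_l (H : ChainCol p e m c d) {k : ℕ} (v : Vt n) (h1 : v.1 ≠ e)
    (h2 : l1 p c d v = k ∨ l2 p c d v = k) : lv p c d v = k ∨ lv p c d v + 1 = k := by
  have := (loc' H v h1).1
  omega

/-- the step along level `k` -/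
def nu (H : ChainCol p e m c d) (hn : 3 ≤ n) (k : ℕ) (v : Xt p e c d k) : Xt p e c d k :=
  ⟨nuf p e c d k v.1, by
    have h1 := v.2.1
    have h3 := lev_cases H v.1 v.2.1 v.2.2
    unfold nuf
    rcases h3 with h3 | h3
    · rw [if_pos h3.1]
      by_cases h4 : (up p v.1).1 = e
      · rw [if_pos h4]
        have h5 : (up p (up p v.1)).1 ≠ e := fun h => up_fst_ne hn _ (h.trans h4.symm)
        refine ⟨h5, mem_of_l H _ h5 (Or.inl ?_)⟩
        rw [l1_up, ← (l1_e H _ h4).1, l1_up]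
        exact h3.1
      · rw [if_neg h4]
        exact ⟨h4, mem_of_l H _ h4 (Or.inl (by rw [l1_up]; exact h3.1))⟩
    · rw [if_neg h3.2]
      by_cases h4 : (dn p v.1).1 = e
      · rw [if_pos h4]
        have h5 : (dn p (dn p v.1)).1 ≠ e := fun h => dn_fst_ne hn _ (h.trans h4.symm)
        refine ⟨h5, mem_of_l H _ h5 (Or.inr ?_)⟩
        rw [l2_dn, (l1_e H _ h4).1, l2_dn]
        exact h3.1
      · rw [if_neg h4]
        exact ⟨h4, mem_of_l H _ h4 (Or.inr (by rw [l2_dn]; exact h3.1))⟩⟩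

theorem nu_nu (H : ChainCol p e m c d) (hn : 3 ≤ n) (k : ℕ) (v : Xt p e c d k) :
    nu H hn k (nu H hn k v) = v := by
  apply Subtype.ext
  change nuf p e c d k (nuf p e c d k v.1) = v.1
  have h0 := (nu H hn k v).2
  change (nuf p e c d k v.1).1 ≠ e ∧ _ at h0
  have h1 := v.2.1
  rcases lev_cases H v.1 v.2.1 v.2.2 with h3 | h3
  · by_cases h4 : (up p v.1).1 = e
    · have e1 : nuf p e c d k v.1 = up p (up p v.1) := by
        unfold nuf; rw [if_pos h3.1, if_pos h4]
      rw [e1] at h0 ⊢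
      have h6 : l1 p c d (up p (up p v.1)) = k := by
        rw [l1_up, ← (l1_e H _ h4).1, l1_up]; exact h3.1
      have h7 : l2 p c d (up p (up p v.1)) ≠ k := by
        have := (loc' H _ h0.1).1
        omega
      unfold nuf
      rw [if_neg h7, dn_up, if_pos h4, dn_up]
    · have e1 : nuf p e c d k v.1 = up p v.1 := by
        unfold nuf; rw [if_pos h3.1, if_neg h4]
      rw [e1] at h0 ⊢
      have h6 : l1 p c d (up p v.1) = k := by rw [l1_up]; exact h3.1
      have h7 : l2 p c d (up p v.1) ≠ k := by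
        have := (loc' H _ h0.1).1
        omega
      unfold nuf
      rw [if_neg h7, dn_up, if_neg h1]
  · by_cases h4 : (dn p v.1).1 = e
    · have e1 : nuf p e c d k v.1 = dn p (dn p v.1) := by
        unfold nuf; rw [if_neg h3.2, if_pos h4]
      rw [e1] at h0 ⊢
      have h6 : l2 p c d (dn p (dn p v.1)) = k := by
        rw [l2_dn, (l1_e H _ h4).1, l2_dn]; exact h3.1
      unfold nuf
      rw [if_pos h6, up_dn, if_pos h4, up_dn]
    · have e1 : nuf p e c d k v.1 = dn p v.1 := by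
        unfold nuf; rw [if_neg h3.2, if_neg h4]
      rw [e1] at h0 ⊢
      have h6 : l2 p c d (dn p v.1) = k := by rw [l2_dn]; exact h3.1
      unfold nuf
      rw [if_pos h6, up_dn, if_neg h1]

theorem nu_ne (H : ChainCol p e m c d) (hn : 3 ≤ n) (k : ℕ) (v : Xt p e c d k) :
    nu H hn k v ≠ v := by
  intro h
  have h' : nuf p e c d k v.1 = v.1 := congrArg Subtype.val h
  unfold nuf at h'
  split_ifs at h' with h1 h2 h2
  · exact upup_ne hn _ h'
  · exact up_fst_ne hn _ (congrArg Prod.fst h')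
  · exact dndn_ne hn _ h'
  · exact dn_fst_ne hn _ (congrArg Prod.fst h')

/-- the matching edge, the identity on level `j` -/
def ta (H : ChainCol p e m c d) (j k : ℕ) (v : Xt p e c d k) : Xt p e c d k :=
  if lv p c d v.1 = j then v else ⟨sg v.1, v.2.1, by rw [lv_sg H _ v.2.1]; exact v.2.2⟩

theorem ta_pos (H : ChainCol p e m c d) {j k : ℕ} (v : Xt p e c d k) (h : lv p c d v.1 = j) :
    ta H j k v = v := by unfold ta; rw [if_pos h]

theorem ta_neg (H : ChainCol p e m c d) {j k : ℕ} (v : Xt p e c d k) (h : lv p c d v.1 ≠ j) :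
    ta H j k v = ⟨sg v.1, v.2.1, by rw [lv_sg H _ v.2.1]; exact v.2.2⟩ := by
  unfold ta; rw [if_neg h]

theorem ta_ta (H : ChainCol p e m c d) (j k : ℕ) (v : Xt p e c d k) :
    ta H j k (ta H j k v) = v := by
  by_cases h : lv p c d v.1 = j
  · rw [ta_pos H v h, ta_pos H v h]
  · rw [ta_neg H v h, ta_neg H]
    · apply Subtype.ext
      simp
    · simpa [lv_sg H _ v.2.1] using h

theorem ta_fix (H : ChainCol p e m c d) (j k : ℕ) (v : Xt p e c d k) :
    ta H j k v = v ↔ lv p c d v.1 = j := by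
  by_cases h : lv p c d v.1 = j
  · simp [ta_pos H v h, h]
  · rw [ta_neg H v h]
    constructor
    · intro h2
      exact absurd (congrArg Subtype.val h2) (sg_ne _)
    · intro h2; exact absurd h2 h

/-- a vertex of level `j` as a vertex of member `k` -/
def em {j k : ℕ} (hk : k = j ∨ k = j + 1) (w : Wt p e c d j) : Xt p e c d k :=
  ⟨w.1, w.2.1, by have := w.2.2; omega⟩

theorem arc_ex (H : ChainCol p e m c d) (hn : 3 ≤ n) {j k : ℕ} (hk : k = j ∨ k = j + 1)
    (w : Wt p e c d j) : ∃ z : Wt p e c d j, z ≠ w ∧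
      Orb (nu H hn k) (ta H j k) (em hk w) (em hk z) ∧
      ∀ z', Orb (nu H hn k) (ta H j k) (em hk w) (em hk z') → z' = w ∨ z' = z := by
  have : NeZero n := ⟨by omega⟩
  obtain ⟨x, hx1, hx2, hx3, hx4⟩ := first_ret (nu H hn k) (ta H j k) (nu_nu H hn k) (nu_ne H hn k)
    (ta_ta H j k) (em hk w) ((ta_fix H j k _).2 w.2.2)
  have hx5 := (ta_fix H j k x).1 hx1
  refine ⟨⟨x.1, x.2.1, hx5⟩, ?_, ?_, ?_⟩
  · intro h
    apply hx2
    apply Subtype.ext
    exact congrArg (fun z : Wt p e c d j => z.1) h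
  · exact hx3
  · intro z' hz'
    rcases hx4 _ ((ta_fix H j k _).2 z'.2.2) hz' with h | h
    · left
      apply Subtype.ext
      exact congrArg (fun z : Xt p e c d k => z.1) h
    · right
      apply Subtype.ext
      exact congrArg (fun z : Xt p e c d k => z.1) h

/-- the other end of the arc of member `k` at `w` -/
noncomputable def arc (H : ChainCol p e m c d) (hn : 3 ≤ n) {j k : ℕ} (hk : k = j ∨ k = j + 1)
    (w : Wt p e c d j) : Wt p e c d j := (arc_ex H hn hk w).choose

theorem arc_ne (H : ChainCol p e m c d) (hn : 3 ≤ n) {j k : ℕ} (hk : k = j ∨ k = j + 1)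
    (w : Wt p e c d j) : arc H hn hk w ≠ w := (arc_ex H hn hk w).choose_spec.1

theorem arc_orb (H : ChainCol p e m c d) (hn : 3 ≤ n) {j k : ℕ} (hk : k = j ∨ k = j + 1)
    (w : Wt p e c d j) : Orb (nu H hn k) (ta H j k) (em hk w) (em hk (arc H hn hk w)) :=
  (arc_ex H hn hk w).choose_spec.2.1

theorem arc_uniq (H : ChainCol p e m c d) (hn : 3 ≤ n) {j k : ℕ} (hk : k = j ∨ k = j + 1)
    {w z : Wt p e c d j} (h : Orb (nu H hn k) (ta H j k) (em hk w) (em hk z)) :
    z = w ∨ z = arc H hn hk w := (arc_ex H hn hk w).choose_spec.2.2 z h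

theorem arc_arc (H : ChainCol p e m c d) (hn : 3 ≤ n) {j k : ℕ} (hk : k = j ∨ k = j + 1)
    (w : Wt p e c d j) : arc H hn hk (arc H hn hk w) = w := by
  have h := (arc_orb H hn hk w).symm (nu_nu H hn k) (ta_ta H j k)
  rcases arc_uniq H hn hk h with h2 | h2
  · exact absurd h2.symm (arc_ne H hn hk w)
  · exact h2.symm

/-- the matching edge on level `j` -/
def sw (H : ChainCol p e m c d) {j : ℕ} (w : Wt p e c d j) : Wt p e c d j :=
  ⟨sg w.1, w.2.1, by rw [lv_sg H _ w.2.1]; exact w.2.2⟩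

/-! ### functions on arcs as functions on edges -/

/-- the value on the edge `v, up v` of a property of the arcs of member `k` -/
def ed {k : ℕ} (φ : Xt p e c d k → Prop) (v : Vt n) : Prop :=
  (∃ h, φ ⟨v, h⟩) ∨ ∃ h, φ ⟨up p v, h⟩

theorem ed_up (H : ChainCol p e m c d) (hn : 3 ≤ n) {k : ℕ} (φ : Xt p e c d k → Prop)
    (hφ : ∀ x, φ (nu H hn k x) ↔ φ x) (v : Xt p e c d k) (h : l2 p c d v.1 = k) :
    ed φ v.1 ↔ φ v := by
  constructor
  · rintro (⟨h1, h2⟩ | ⟨h1, h2⟩)
    · exact h2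
    · have h3 : nu H hn k v = ⟨up p v.1, h1⟩ := by
        apply Subtype.ext
        change nuf p e c d k v.1 = up p v.1
        unfold nuf
        rw [if_pos h, if_neg h1.1]
      rw [← hφ, h3]
      exact h2
  · intro h1
    exact Or.inl ⟨v.2, h1⟩

theorem ed_dn (H : ChainCol p e m c d) (hn : 3 ≤ n) {k : ℕ} (φ : Xt p e c d k → Prop)
    (hφ : ∀ x, φ (nu H hn k x) ↔ φ x) (v : Xt p e c d k) (h : l1 p c d v.1 = k) :
    ed φ (dn p v.1) ↔ φ v := by
  constructor
  · rintro (⟨h1, h2⟩ | ⟨h1, h2⟩)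
    · have h4 : l2 p c d v.1 ≠ k := by
        have := (loc' H _ v.2.1).1
        omega
      have h3 : nu H hn k v = ⟨dn p v.1, h1⟩ := by
        apply Subtype.ext
        change nuf p e c d k v.1 = dn p v.1
        unfold nuf
        rw [if_neg h4, if_neg h1.1]
      rw [← hφ, h3]
      exact h2
    · have h3 : (⟨up p (dn p v.1), h1⟩ : Xt p e c d k) = v := Subtype.ext (up_dn _)
      rw [h3] at h2
      exact h2
  · intro h1
    right
    have h3 : up p (dn p v.1) = v.1 := up_dn _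
    refine ⟨by rw [h3]; exact v.2, ?_⟩
    convert h1

/-- around an end of `e` -/
theorem ed_e (H : ChainCol p e m c d) (hn : 3 ≤ n) {k : ℕ} (φ : Xt p e c d k → Prop)
    (hφ : ∀ x, φ (nu H hn k x) ↔ φ x) (v : Vt n) (hv : v.1 = e) (h : l2 p c d v = k) :
    ed φ (dn p v) ↔ ed φ v := by
  have h1 : (dn p v).1 ≠ e := fun h => dn_fst_ne hn v (h.trans hv.symm)
  have h2 : (up p v).1 ≠ e := fun h => up_fst_ne hn v (h.trans hv.symm)
  have h3 : l2 p c d (dn p v) = k := by rw [l2_dn, (l1_e H v hv).1, h]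
  have h4 : l1 p c d (up p v) = k := by rw [l1_up, h]
  have h5 := mem_of_l H _ h1 (Or.inr h3)
  have h6 := mem_of_l H _ h2 (Or.inl h4)
  have h7 : nu H hn k ⟨dn p v, h1, h5⟩ = ⟨up p v, h2, h6⟩ := by
    apply Subtype.ext
    change nuf p e c d k (dn p v) = up p v
    unfold nuf
    rw [if_pos h3, up_dn, if_pos hv]
  have h8 := hφ ⟨dn p v, h1, h5⟩
  rw [h7] at h8
  constructor
  · rintro (⟨h9, h10⟩ | ⟨h9, h10⟩)
    · exact Or.inr ⟨⟨h2, h6⟩, h8.2 h10⟩
    · exact absurd (by rw [up_dn]; exact hv) h9.1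
  · rintro (⟨h9, h10⟩ | ⟨h9, h10⟩)
    · exact absurd hv h9.1
    · exact Or.inl ⟨⟨h1, h5⟩, h8.1 h10⟩

end chain

end Pool.Agent.H57.PSys
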