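import Mathlib
import Pool.Agent.H57.PSys.Ring

set_option autoImplicit false

/-!
The edges of `C₁`, `C₂` used by an alternating set of a pair system, and the pair system of two
consecutive members of the chain.
-/

namespace Pool.Agent.H57.PSys

open Pool.Agent.H64.Pent Pool.Agent.H77.GC

variable {n : ℕ} {p : Equiv.Perm (ZMod n)} {e : ZMod n} {m : ℕ} {c d : ZMod n → ℕ}

/-- the arc of member `k` at `w` is not a single edge -/
def At {j : ℕ} (p : Equiv.Perm (ZMod n)) (e : ZMod n) (c d : ZMod n → ℕ) (k : ℕ)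
    (w : Wt p e c d j) : Prop :=
  ¬ ((nb p c d k w.1).1 ≠ e ∧ lv p c d (nb p c d k w.1) = j)

theorem nuf_nb {k : ℕ} {v : Vt n} (h : (nb p c d k v).1 ≠ e) :
    nuf p e c d k v = nb p c d k v := by
  unfold nb at h ⊢
  unfold nuf
  split_ifs at h ⊢ <;> first | rfl | contradiction

theorem nb_nb (H : ChainCol p e m c d) (hn : 3 ≤ n) {k : ℕ} (v : Xt p e c d k)
    (h : (nb p c d k v.1).1 ≠ e) : nb p c d k (nb p c d k v.1) = v.1 := by
  have h1 : (nu H hn k v).1 = nb p c d k v.1 := nuf_nb h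
  have h2 : (nb p c d k (nb p c d k v.1)).1 ≠ e := by
    rcases lev_cases H v.1 v.2.1 v.2.2 with h3 | h3
    · have h4 : nb p c d k v.1 = up p v.1 := by unfold nb; rw [if_pos h3.1]
      rw [h4] at h ⊢
      have h5 := mem_of_l H (k := k) _ h (Or.inl (by rw [l1_up]; exact h3.1))
      have h6 : l2 p c d (up p v.1) ≠ k := by
        rcases lev_cases H _ h h5 with h7 | h7
        · have : l1 p c d (up p v.1) = k := by rw [l1_up]; exact h3.1
          exact absurd this h7.2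
        · exact h7.2
      unfold nb
      rw [if_neg h6, dn_up]
      exact v.2.1
    · have h4 : nb p c d k v.1 = dn p v.1 := by unfold nb; rw [if_neg h3.2]
      rw [h4] at h ⊢
      unfold nb
      rw [if_pos (by rw [l2_dn]; exact h3.1), up_dn]
      exact v.2.1
  have h3 := congrArg Subtype.val (nu_nu H hn k v)
  change nuf p e c d k (nu H hn k v).1 = v.1 at h3
  rw [h1, nuf_nb h2] at h3
  exact h3

theorem arc_direct (H : ChainCol p e m c d) (hn : 3 ≤ n) {j k : ℕ} (hk : k = j ∨ k = j + 1)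
    (w : Wt p e c d j) (h1 : (nb p c d k w.1).1 ≠ e) (h2 : lv p c d (nb p c d k w.1) = j) :
    (arc H hn hk w).1 = nb p c d k w.1 := by
  have h3 : nu H hn k (em hk w) = em hk ⟨nb p c d k w.1, h1, h2⟩ := by
    apply Subtype.ext
    exact nuf_nb h1
  have h4 := (Orb.refl (nu H hn k) (ta H j k) (em hk w)).nu
  rw [h3] at h4
  rcases arc_uniq H hn hk h4 with h5 | h5
  · exfalso
    apply nu_ne H hn k (em hk w)
    rw [h3, h5]
  · rw [← h5]

theorem arc_two (H : ChainCol p e m c d) (hn : 3 ≤ n) {j k : ℕ} (hk : k = j ∨ k = j + 1)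
    (w : Wt p e c d j) (h1 : (nb p c d k w.1).1 ≠ e) (h2 : lv p c d (nb p c d k w.1) ≠ j)
    (h3 : (nb p c d k (sg (nb p c d k w.1))).1 ≠ e)
    (h4 : lv p c d (nb p c d k (sg (nb p c d k w.1))) = j) :
    (arc H hn hk w).1 = nb p c d k (sg (nb p c d k w.1)) := by
  have e1 : (nu H hn k (em hk w)).1 = nb p c d k w.1 := nuf_nb h1
  have e2 : (ta H j k (nu H hn k (em hk w))).1 = sg (nb p c d k w.1) := by
    rw [ta_neg H _ (by rw [e1]; exact h2)]
    change sg (nu H hn k (em hk w)).1 = _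
    rw [e1]
  have e3 : nu H hn k (ta H j k (nu H hn k (em hk w))) =
      em hk ⟨nb p c d k (sg (nb p c d k w.1)), h3, h4⟩ := by
    apply Subtype.ext
    change nuf p e c d k (ta H j k (nu H hn k (em hk w))).1 = _
    rw [e2]
    exact nuf_nb h3
  have h5 := ((Orb.refl (nu H hn k) (ta H j k) (em hk w)).nu).tau.nu
  rw [e3] at h5
  rcases arc_uniq H hn hk h5 with h6 | h6
  · exfalso
    rw [h6] at e3
    have h7 : ta H j k (nu H hn k (em hk w)) = nu H hn k (em hk w) := by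
      rw [← nu_nu H hn k (ta H j k (nu H hn k (em hk w))), e3]
    rw [ta_fix, e1] at h7
    exact h2 h7
  · rw [← h6]

theorem At_arc_aux (H : ChainCol p e m c d) (hn : 3 ≤ n) {j k : ℕ} (hk : k = j ∨ k = j + 1)
    (w : Wt p e c d j) (h : ¬ At p e c d k w) : ¬ At p e c d k (arc H hn hk w) := by
  unfold At at h ⊢
  rw [not_not] at h ⊢
  have h1 := arc_direct H hn hk w h.1 h.2
  have h2 := nb_nb H hn (em hk w) h.1
  rw [h1]
  change nb p c d k (nb p c d k w.1) = w.1 at h2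
  rw [h2]
  exact w.2

theorem At_arc (H : ChainCol p e m c d) (hn : 3 ≤ n) {j k : ℕ} (hk : k = j ∨ k = j + 1)
    (w : Wt p e c d j) : At p e c d k (arc H hn hk w) ↔ At p e c d k w := by
  constructor
  · intro h
    by_contra h2
    exact At_arc_aux H hn hk w h2 h
  · intro h
    by_contra h2
    have := At_arc_aux H hn hk _ h2
    rw [arc_arc] at this
    exact this h

/-- a property of the arcs of member `k`, as a property of the vertices -/
def ph (H : ChainCol p e m c d) (hn : 3 ≤ n) {j k : ℕ} (hk : k = j ∨ k = j + 1)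
    (κ : Wt p e c d j → Prop) (x : Xt p e c d k) : Prop :=
  ∃ w, κ w ∧ Orb (nu H hn k) (ta H j k) (em hk w) x

theorem ph_nu (H : ChainCol p e m c d) (hn : 3 ≤ n) {j k : ℕ} (hk : k = j ∨ k = j + 1)
    (κ : Wt p e c d j → Prop) (x : Xt p e c d k) :
    ph H hn hk κ (nu H hn k x) ↔ ph H hn hk κ x := by
  constructor
  · rintro ⟨w, h1, h2⟩
    have := h2.nu
    rw [nu_nu] at this
    exact ⟨w, h1, this⟩
  · rintro ⟨w, h1, h2⟩
    exact ⟨w, h1, h2.nu⟩

theorem ph_ta (H : ChainCol p e m c d) (hn : 3 ≤ n) {j k : ℕ} (hk : k = j ∨ k = j + 1)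
    (κ : Wt p e c d j → Prop) (x : Xt p e c d k) :
    ph H hn hk κ (ta H j k x) ↔ ph H hn hk κ x := by
  constructor
  · rintro ⟨w, h1, h2⟩
    have := h2.tau
    rw [ta_ta] at this
    exact ⟨w, h1, this⟩
  · rintro ⟨w, h1, h2⟩
    exact ⟨w, h1, h2.tau⟩

theorem ph_em (H : ChainCol p e m c d) (hn : 3 ≤ n) {j k : ℕ} (hk : k = j ∨ k = j + 1)
    (κ : Wt p e c d j → Prop) (hκ : ∀ w, κ (arc H hn hk w) ↔ κ w) (w : Wt p e c d j) :
    ph H hn hk κ (em hk w) ↔ κ w := by
  constructor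
  · rintro ⟨w', h1, h2⟩
    rcases arc_uniq H hn hk h2 with h3 | h3
    · rw [h3]; exact h1
    · rw [h3, hκ]; exact h1
  · intro h
    exact ⟨w, h, Orb.refl _ _ _⟩

/-- the edge `v, up v` is used -/
def Us (H : ChainCol p e m c d) (hn : 3 ≤ n) (j : ℕ) (ka kb : Wt p e c d j → Prop) (v : Vt n) :
    Prop :=
  (l2 p c d v = j ∧ ed (ph H hn (Or.inl rfl : j = j ∨ j = j + 1) ka) v) ∨
    (l2 p c d v = j + 1 ∧ ed (ph H hn (Or.inr rfl : j + 1 = j ∨ j + 1 = j + 1) kb) v)

section us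
variable (H : ChainCol p e m c d) (hn : 3 ≤ n) {j : ℕ} (ka kb : Wt p e c d j → Prop)

theorem Us_up_a (x : Xt p e c d j) (h : l2 p c d x.1 = j) :
    Us H hn j ka kb x.1 ↔ ph H hn (Or.inl rfl) ka x := by
  unfold Us
  rw [ed_up H hn _ (ph_nu H hn _ ka) x h]
  constructor
  · rintro (h1 | h1)
    · exact h1.2
    · omega
  · exact fun h1 => Or.inl ⟨h, h1⟩

theorem Us_dn_a (x : Xt p e c d j) (h : l1 p c d x.1 = j) :
    Us H hn j ka kb (dn p x.1) ↔ ph H hn (Or.inl rfl) ka x := by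
  unfold Us
  rw [ed_dn H hn _ (ph_nu H hn _ ka) x h, l2_dn]
  constructor
  · rintro (h1 | h1)
    · exact h1.2
    · omega
  · exact fun h1 => Or.inl ⟨h, h1⟩

theorem Us_up_b (x : Xt p e c d (j + 1)) (h : l2 p c d x.1 = j + 1) :
    Us H hn j ka kb x.1 ↔ ph H hn (Or.inr rfl) kb x := by
  unfold Us
  rw [ed_up H hn _ (ph_nu H hn _ kb) x h]
  constructor
  · rintro (h1 | h1)
    · omega
    · exact h1.2
  · exact fun h1 => Or.inr ⟨h, h1⟩

theorem Us_dn_b (x : Xt p e c d (j + 1)) (h : l1 p c d x.1 = j + 1) :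
    Us H hn j ka kb (dn p x.1) ↔ ph H hn (Or.inr rfl) kb x := by
  unfold Us
  rw [ed_dn H hn _ (ph_nu H hn _ kb) x h, l2_dn]
  constructor
  · rintro (h1 | h1)
    · omega
    · exact h1.2
  · exact fun h1 => Or.inr ⟨h, h1⟩

theorem Us_none (v : Vt n) (h1 : l2 p c d v ≠ j) (h2 : l2 p c d v ≠ j + 1) :
    ¬ Us H hn j ka kb v := by
  unfold Us
  rintro (h | h)
  · exact h1 h.1
  · exact h2 h.1

end us

/-- the pair system of the members `j`, `j + 1`; `cP`, `cR` as hypotheses -/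
noncomputable def sys (H : ChainCol p e m c d) (hn : 3 ≤ n) (j : ℕ)
    (cP : ∀ U : Wt p e c d j → Prop, (∀ v, U v → U (sw H v)) →
      (∀ v, U v → U (arc H hn (Or.inl rfl : j = j ∨ j = j + 1) v)) → (∃ v, U v) → ∀ v, U v)
    (cR : ∀ U : Wt p e c d j → Prop, (∀ v, U v → U (sw H v)) →
      (∀ v, U v → U (arc H hn (Or.inr rfl : j + 1 = j ∨ j + 1 = j + 1) v)) → (∃ v, U v) →
      ∀ v, U v) :
    Sys (Wt p e c d j) where
  s := sw H
  a := arc H hn (Or.inl rfl)
  b := arc H hn (Or.inr rfl)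
  A0 := At p e c d j
  A2 := At p e c d (j + 1)
  ss v := by apply Subtype.ext; simp [sw]
  sn v := fun h => sg_ne v.1 (congrArg Subtype.val h)
  aa := arc_arc H hn _
  an := arc_ne H hn _
  bb := arc_arc H hn _
  bn := arc_ne H hn _
  hA0 := At_arc H hn _
  hA2 := At_arc H hn _
  cP := cP
  cR := cR

end Pool.Agent.H57.PSys
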