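import Mathlib
import Pool.Agent.H57.PSys.Used

set_option autoImplicit false

/-!
An alternating set of the pair system is an alternating edge set `Alt p A B`.
-/

namespace Pool.Agent.H57.PSys

open Pool.Agent.H64.Pent hiding Alt
open Pool.Agent.H77.GC

variable {n : ℕ} {p : Equiv.Perm (ZMod n)} {e : ZMod n} {m : ℕ} {c d : ZMod n → ℕ}

section
variable (H : ChainCol p e m c d) (hn : 3 ≤ n) {j : ℕ} (ka kb : Wt p e c d j → Prop)

/-- the two edges at a vertex: at most one is used, and one is used iff `q` -/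
def One (q : Prop) (v : Vt n) : Prop :=
  (¬ (Us H hn j ka kb v ∧ Us H hn j ka kb (dn p v))) ∧
    ((Us H hn j ka kb v ∨ Us H hn j ka kb (dn p v)) ↔ q)

theorem One_W (ha : ∀ w, ka (arc H hn (Or.inl rfl) w) ↔ ka w)
    (hb : ∀ w, kb (arc H hn (Or.inr rfl) w) ↔ kb w) (h1 : ∀ w, ¬ (ka w ∧ kb w))
    (w : Wt p e c d j) : One H hn ka kb (ka w ∨ kb w) w.1 := by
  have e1 := ph_em H hn (Or.inl rfl : j = j ∨ j = j + 1) ka ha w
  have e2 := ph_em H hn (Or.inr rfl : j + 1 = j ∨ j + 1 = j + 1) kb hb w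
  have h3 := (loc' H w.1 w.2.1).1
  rw [w.2.2] at h3
  have h4 := h1 w
  unfold One
  rcases h3 with h3 | h3
  · have e3 : Us H hn j ka kb (dn p w.1) ↔ _ :=
      Us_dn_a H hn ka kb (em (Or.inl rfl) w) h3.1
    have e4 : Us H hn j ka kb w.1 ↔ _ := Us_up_b H hn ka kb (em (Or.inr rfl) w) h3.2
    rw [e3, e4, e1, e2]
    tauto
  · have e3 : Us H hn j ka kb w.1 ↔ _ := Us_up_a H hn ka kb (em (Or.inl rfl) w) h3.2
    have e4 : Us H hn j ka kb (dn p w.1) ↔ _ :=
      Us_dn_b H hn ka kb (em (Or.inr rfl) w) h3.1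
    rw [e3, e4, e1, e2]
    tauto

theorem One_lo (x : Xt p e c d j) (hx : lv p c d x.1 + 1 = j) :
    One H hn ka kb (ph H hn (Or.inl rfl) ka x) x.1 := by
  have h3 := (loc' H x.1 x.2.1).1
  unfold One
  rcases h3 with h3 | h3
  · have h5 := Us_up_a H hn ka kb x (by omega)
    have h6 := Us_none H hn (j := j) ka kb (dn p x.1) (by rw [l2_dn]; omega) (by rw [l2_dn]; omega)
    tauto
  · have h5 := Us_dn_a H hn ka kb x (by omega)
    have h6 := Us_none H hn (j := j) ka kb x.1 (by omega) (by omega)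
    tauto

theorem One_hi (x : Xt p e c d (j + 1)) (hx : lv p c d x.1 = j + 1) :
    One H hn ka kb (ph H hn (Or.inr rfl) kb x) x.1 := by
  have h3 := (loc' H x.1 x.2.1).1
  unfold One
  rcases h3 with h3 | h3
  · have h5 := Us_dn_b H hn ka kb x (by omega)
    have h6 := Us_none H hn (j := j) ka kb x.1 (by omega) (by omega)
    tauto
  · have h5 := Us_up_b H hn ka kb x (by omega)
    have h6 := Us_none H hn (j := j) ka kb (dn p x.1) (by rw [l2_dn]; omega) (by rw [l2_dn]; omega)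
    tauto

theorem One_no (v : Vt n) (hv : v.1 ≠ e) (h1 : lv p c d v ≠ j) (h2 : lv p c d v + 1 ≠ j)
    (h3 : lv p c d v ≠ j + 1) : One H hn ka kb False v := by
  have h4 := (loc' H v hv).1
  have h5 := Us_none H hn (j := j) ka kb v (by omega) (by omega)
  have h6 := Us_none H hn (j := j) ka kb (dn p v) (by rw [l2_dn]; omega) (by rw [l2_dn]; omega)
  unfold One
  tauto

/-- both ends of a matching edge -/
theorem One_both (ha : ∀ w, ka (arc H hn (Or.inl rfl) w) ↔ ka w)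
    (hb : ∀ w, kb (arc H hn (Or.inr rfl) w) ↔ kb w) (h1 : ∀ w, ¬ (ka w ∧ kb w))
    (hs : ∀ w, (ka (sw H w) ∨ kb (sw H w)) ↔ (ka w ∨ kb w)) (v : Vt n) (hv : v.1 ≠ e) :
    ∃ q, One H hn ka kb q v ∧ One H hn ka kb q (sg v) := by
  have e0 := lv_sg H v hv
  by_cases g1 : lv p c d v = j
  · refine ⟨_, One_W H hn ka kb ha hb h1 ⟨v, hv, g1⟩, ?_⟩
    have := One_W H hn ka kb ha hb h1 (sw H ⟨v, hv, g1⟩)
    rw [hs] at this
    exact this
  by_cases g2 : lv p c d v + 1 = j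
  · have g3 := One_lo H hn ka kb ⟨v, hv, Or.inr g2⟩ g2
    refine ⟨_, g3, ?_⟩
    have g4 := One_lo H hn ka kb (ta H j j ⟨v, hv, Or.inr g2⟩) (by
      rw [ta_neg H _ g1]; rw [← e0] at g2; exact g2)
    rw [ph_ta, ta_neg H _ g1] at g4
    exact g4
  by_cases g5 : lv p c d v = j + 1
  · have g3 := One_hi H hn ka kb ⟨v, hv, Or.inl g5⟩ g5
    refine ⟨_, g3, ?_⟩
    have g4 := One_hi H hn ka kb (ta H j (j + 1) ⟨v, hv, Or.inl g5⟩) (by
      rw [ta_neg H _ g1]; rw [← e0] at g5; exact g5)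
    rw [ph_ta, ta_neg H _ g1] at g4
    exact g4
  · refine ⟨False, One_no H hn ka kb v hv g1 g2 g5, One_no H hn ka kb (sg v) hv ?_ ?_ ?_⟩ <;>
      rw [e0] <;> assumption

/-- no arc through an end of `e` is used -/
def Avoid (m : ℕ) : Prop :=
  (j = 0 → ∀ w : Wt p e c d j, (nb p c d j w.1).1 = e → ¬ ka w) ∧
    (j + 1 = m → ∀ w : Wt p e c d j, (nb p c d (j + 1) w.1).1 = e → ¬ kb w)

theorem Us_e (ha : ∀ w, ka (arc H hn (Or.inl rfl) w) ↔ ka w)
    (hb : ∀ w, kb (arc H hn (Or.inr rfl) w) ↔ kb w) (hjm : j < m)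
    (hav : Avoid ka kb m) (v : Vt n) (hv : v.1 = e) :
    ¬ Us H hn j ka kb v ∧ ¬ Us H hn j ka kb (dn p v) := by
  have h0 := l1_e H v hv
  have key : ¬ Us H hn j ka kb v := by
    have h2 : (up p v).1 ≠ e := fun h => up_fst_ne hn v (h.trans hv.symm)
    have h3 := (loc' H _ h2)
    rw [l1_up] at h3
    rintro (⟨h4, h5⟩ | ⟨h4, h5⟩)
    · have h6 : v.2 = false := by
        by_contra h7
        have h8 : v.2 = true := by simpa using h7
        rw [h8, if_pos rfl] at h0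
        omega
      rw [h6] at h0
      have h7 : j = 0 := by have := h0.2; simp at this; omega
      rcases h5 with ⟨h8, _⟩ | ⟨h8, h9⟩
      · exact h8.1 hv
      · have h10 : lv p c d (up p v) = j := by omega
        have h11 := (ph_em H hn (Or.inl rfl : j = j ∨ j = j + 1) ka ha ⟨up p v, h2, h10⟩).1 h9
        refine hav.1 h7 ⟨up p v, h2, h10⟩ ?_ h11
        have h12 : l2 p c d (up p v) ≠ j := by omega
        unfold nb
        rw [if_neg h12, dn_up]
        exact hv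
    · have h6 : v.2 = true := by
        by_contra h7
        have h8 : v.2 = false := by simpa using h7
        rw [h8] at h0
        have := h0.2
        simp at this
        omega
      rw [h6, if_pos rfl] at h0
      rcases h5 with ⟨h8, _⟩ | ⟨h8, h9⟩
      · exact h8.1 hv
      · have h10 : lv p c d (up p v) = j := by omega
        have h11 := (ph_em H hn (Or.inr rfl : j + 1 = j ∨ j + 1 = j + 1) kb hb
          ⟨up p v, h2, h10⟩).1 h9
        refine hav.2 (by omega) ⟨up p v, h2, h10⟩ ?_ h11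
        have h12 : l2 p c d (up p v) ≠ j + 1 := by omega
        unfold nb
        rw [if_neg h12, dn_up]
        exact hv
  refine ⟨key, ?_⟩
  unfold Us at key ⊢
  rw [l2_dn, h0.1]
  rintro (⟨h4, h5⟩ | ⟨h4, h5⟩)
  · exact key (Or.inl ⟨h4, (ed_e H hn _ (ph_nu H hn _ ka) v hv h4).1 h5⟩)
  · exact key (Or.inr ⟨h4, (ed_e H hn _ (ph_nu H hn _ kb) v hv h4).1 h5⟩)

open Classical in
/-- the used edges of `C₁` -/
noncomputable def UA (i : ZMod n) : ZMod 2 := if Us H hn j ka kb (i, false) then 1 else 0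

open Classical in
/-- the used edges of `C₂` -/
noncomputable def UB (i : ZMod n) : ZMod 2 := if Us H hn j ka kb (p.symm i, true) then 1 else 0

theorem UA_one (i : ZMod n) : UA H hn ka kb i = 1 ↔ Us H hn j ka kb (i, false) := by
  unfold UA; split_ifs with h <;> simp [h]
theorem UA_zero (i : ZMod n) : UA H hn ka kb i = 0 ↔ ¬ Us H hn j ka kb (i, false) := by
  unfold UA; split_ifs with h <;> simp [h]
theorem UB_one (i : ZMod n) : UB H hn ka kb i = 1 ↔ Us H hn j ka kb (p.symm i, true) := by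
  unfold UB; split_ifs with h <;> simp [h]
theorem UB_zero (i : ZMod n) : UB H hn ka kb i = 0 ↔ ¬ Us H hn j ka kb (p.symm i, true) := by
  unfold UB; split_ifs with h <;> simp [h]

theorem add_eq_one_of (P Q : Prop) (h1 : ¬ (P ∧ Q)) (h2 : P ∨ Q) (a b : ZMod 2)
    (ha1 : a = 1 ↔ P) (ha0 : a = 0 ↔ ¬ P) (hb1 : b = 1 ↔ Q) (hb0 : b = 0 ↔ ¬ Q) : b + a = 1 := by
  rcases h2 with h2 | h2
  · have : ¬ Q := fun h => h1 ⟨h2, h⟩
    rw [ha1.2 h2, hb0.2 this]; simp
  · have : ¬ P := fun h => h1 ⟨h, h2⟩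
    rw [hb1.2 h2, ha0.2 this]; simp

theorem toAlt (ha : ∀ w, ka (arc H hn (Or.inl rfl) w) ↔ ka w)
    (hb : ∀ w, kb (arc H hn (Or.inr rfl) w) ↔ kb w) (h1 : ∀ w, ¬ (ka w ∧ kb w))
    (hs : ∀ w, (ka (sw H w) ∨ kb (sw H w)) ↔ (ka w ∨ kb w)) (hjm : j < m)
    (hav : Avoid ka kb m) :
    Pool.Agent.H64.Pent.Alt p (UA H hn ka kb) (UB H hn ka kb) := by
  intro i
  have e1 : dn p ((i, false) : Vt n) = (i - 1, false) := by simp [dn]
  have e2 : dn p ((i, true) : Vt n) = (p.symm (p i - 1), true) := by simp [dn]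
  have e3 : ((p.symm (p i), true) : Vt n) = (i, true) := by simp
  by_cases hi : i = e
  · left
    have g1 := Us_e H hn ka kb ha hb hjm hav (i, false) hi
    have g2 := Us_e H hn ka kb ha hb hjm hav (i, true) hi
    rw [e1] at g1
    rw [e2] at g2
    rw [UA_zero, UA_zero, UB_zero, UB_zero, e3]
    exact ⟨g1.2, g1.1, g2.2, g2.1⟩
  · obtain ⟨q, g1, g2⟩ := One_both H hn ka kb ha hb h1 hs (i, false) hi
    change One H hn ka kb q (i, true) at g2
    unfold One at g1 g2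
    rw [e1] at g1
    rw [e2] at g2
    by_cases hq : q
    · right
      constructor
      · exact add_eq_one_of _ _ g1.1 (g1.2.2 hq) _ _ (UA_one H hn ka kb i) (UA_zero H hn ka kb i)
          (UA_one H hn ka kb _) (UA_zero H hn ka kb _)
      · refine add_eq_one_of _ _ g2.1 (g2.2.2 hq) _ _ ?_ ?_
          (UB_one H hn ka kb _) (UB_zero H hn ka kb _)
        · rw [UB_one, e3]
        · rw [UB_zero, e3]
    · left
      have g3 : ¬ (_ ∨ _) := fun h => hq (g1.2.1 h)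
      have g4 : ¬ (_ ∨ _) := fun h => hq (g2.2.1 h)
      rw [UA_zero, UA_zero, UB_zero, UB_zero, e3]
      exact ⟨fun h => g3 (Or.inr h), fun h => g3 (Or.inl h), fun h => g4 (Or.inr h),
        fun h => g4 (Or.inl h)⟩

theorem exists_used (ha : ∀ w, ka (arc H hn (Or.inl rfl) w) ↔ ka w)
    (hb : ∀ w, kb (arc H hn (Or.inr rfl) w) ↔ kb w) (h1 : ∀ w, ¬ (ka w ∧ kb w))
    (hs : ∀ w, (ka (sw H w) ∨ kb (sw H w)) ↔ (ka w ∨ kb w)) (hK : ∃ w, ka w ∨ kb w) :
    ∃ i, UA H hn ka kb i = 1 := by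
  obtain ⟨w, hw⟩ := hK
  obtain ⟨w', hw', hf⟩ : ∃ w' : Wt p e c d j, (ka w' ∨ kb w') ∧ w'.1.2 = false := by
    by_cases h : w.1.2 = false
    · exact ⟨w, hw, h⟩
    · refine ⟨sw H w, (hs w).2 hw, ?_⟩
      simp [sw, sg] at h ⊢
      exact h
  have h3 := (One_W H hn ka kb ha hb h1 w').2.2 hw'
  obtain ⟨⟨⟨i, s⟩, h5⟩, h6⟩ : ∃ z : Wt p e c d j, z = w' := ⟨w', rfl⟩
  subst h6
  simp only at hf
  subst hf
  rcases h3 with h3 | h3
  · exact ⟨i, (UA_one H hn ka kb i).2 h3⟩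
  · refine ⟨i - 1, (UA_one H hn ka kb _).2 ?_⟩
    have e1 : dn p ((i, false) : Vt n) = (i - 1, false) := by simp [dn]
    rw [← e1]
    exact h3

end

end Pool.Agent.H57.PSys
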