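import Mathlib
import Pool.Agent.H57.PSys.ToAlt
import Pool.Agent.H77.GC.Side

set_option autoImplicit false

/-!
In a critical pair every alternating set of the pair system of two consecutive members of the chain
leaves a matching bridge.
-/

namespace Pool.Agent.H57.PSys

open Pool.Agent.H64.Pent hiding Alt
open Pool.Agent.H77.GC

variable {n : ℕ} {p : Equiv.Perm (ZMod n)} {e : ZMod n} {m : ℕ} {c d : ZMod n → ℕ}

/-- the side of a vertex -/
noncomputable def Sd (g : ZMod n) (vv : ZMod n → ZMod 2) (v : Vt n) : ZMod 2 := by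
  classical
  exact if v.1 = g then (if v.2 then 0 else 1) else vv v.1

theorem Sd_g1 (g : ZMod n) (vv : ZMod n → ZMod 2) : Sd g vv (g, false) = 1 := by simp [Sd]
theorem Sd_g2 (g : ZMod n) (vv : ZMod n → ZMod 2) : Sd g vv (g, true) = 0 := by simp [Sd]
theorem Sd_ne (g : ZMod n) (vv : ZMod n → ZMod 2) (v : Vt n) (h : v.1 ≠ g) :
    Sd g vv v = vv v.1 := by simp [Sd, h]
theorem Sd_sg (g : ZMod n) (vv : ZMod n → ZMod 2) (v : Vt n) (h : v.1 ≠ g) :
    Sd g vv (sg v) = Sd g vv v := by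
  rw [Sd_ne g vv v h, Sd_ne g vv (sg v) h, sg_fst]

/-- the value on the edge `v, up v` -/
def sv (p : Equiv.Perm (ZMod n)) (s t : ZMod n → ZMod 2) (v : Vt n) : ZMod 2 :=
  if v.2 then t (p v.1) else s v.1

section
variable (H : ChainCol p e m c d) (hn : 3 ≤ n) {j : ℕ} (ka kb : Wt p e c d j → Prop)
  {g : ZMod n} {s t : ZMod n → ZMod 2} {vv : ZMod n → ZMod 2}
  (hS : Side p (UA H hn ka kb) (UB H hn ka kb) g s t)
  (hvv : ∀ i, i ≠ g → s (i - 1) = (1 + UA H hn ka kb (i - 1)) * vv i ∧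
    s i = (1 + UA H hn ka kb i) * vv i ∧
    t (p i - 1) = (1 + UB H hn ka kb (p i - 1)) * vv i ∧
    t (p i) = (1 + UB H hn ka kb (p i)) * vv i)

include hS hvv

theorem Sd_up1 (v : Vt n) (h : ¬ Us H hn j ka kb v) : Sd g vv v = sv p s t v := by
  rcases v with ⟨i, _ | _⟩
  · have h1 := (UA_zero H hn ka kb i).2 h
    change _ = s i
    by_cases hi : i = g
    · subst hi
      rw [Sd_g1, hS.2.1.2.1]
    · rw [Sd_ne _ _ _ hi, (hvv i hi).2.1, h1]
      simp
  · have h0 : ((p.symm (p i), true) : Vt n) = (i, true) := by simp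
    have h1 := (UB_zero H hn ka kb (p i)).2 (by rw [h0]; exact h)
    change _ = t (p i)
    by_cases hi : i = g
    · subst hi
      rw [Sd_g2, hS.2.1.2.2.2]
    · rw [Sd_ne _ _ _ hi, (hvv i hi).2.2.2, h1]
      simp

theorem Sd_dn1 (v : Vt n) (h : ¬ Us H hn j ka kb (dn p v)) : Sd g vv v = sv p s t (dn p v) := by
  rcases v with ⟨i, _ | _⟩
  · have e1 : dn p ((i, false) : Vt n) = (i - 1, false) := by simp [dn]
    rw [e1] at h ⊢
    have h1 := (UA_zero H hn ka kb (i - 1)).2 h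
    change _ = s (i - 1)
    by_cases hi : i = g
    · subst hi
      rw [Sd_g1, hS.2.1.1]
    · rw [Sd_ne _ _ _ hi, (hvv i hi).1, h1]
      simp
  · have e2 : dn p ((i, true) : Vt n) = (p.symm (p i - 1), true) := by simp [dn]
    rw [e2] at h ⊢
    have h1 := (UB_zero H hn ka kb (p i - 1)).2 h
    have h3 : sv p s t ((p.symm (p i - 1), true) : Vt n) = t (p i - 1) := by simp [sv]
    rw [h3]
    by_cases hi : i = g
    · subst hi
      rw [Sd_g2, hS.2.1.2.2.1]
    · rw [Sd_ne _ _ _ hi, (hvv i hi).2.2.1, h1]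
      simp

theorem Sd_up (v : Vt n) (h : ¬ Us H hn j ka kb v) : Sd g vv (up p v) = Sd g vv v := by
  rw [Sd_up1 H hn ka kb hS hvv v h, Sd_dn1 H hn ka kb hS hvv (up p v) (by rw [dn_up]; exact h), dn_up]

theorem Sd_dn (v : Vt n) (h : ¬ Us H hn j ka kb (dn p v)) : Sd g vv (dn p v) = Sd g vv v := by
  rw [Sd_dn1 H hn ka kb hS hvv v h, Sd_up1 H hn ka kb hS hvv (dn p v) h]

theorem nbS (k : ℕ) (x : Xt p e c d k) (h1 : l2 p c d x.1 = k → ¬ Us H hn j ka kb x.1)
    (h2 : l1 p c d x.1 = k → ¬ Us H hn j ka kb (dn p x.1)) :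
    Sd g vv (nb p c d k x.1) = Sd g vv x.1 := by
  rcases lev_cases H x.1 x.2.1 x.2.2 with h3 | h3
  · unfold nb
    rw [if_pos h3.1]
    exact Sd_up H hn ka kb hS hvv _ (h1 h3.1)
  · unfold nb
    rw [if_neg h3.2]
    exact Sd_dn H hn ka kb hS hvv _ (h2 h3.1)

theorem nuS (k : ℕ) (x : Xt p e c d k) (h1 : l2 p c d x.1 = k → ¬ Us H hn j ka kb x.1)
    (h2 : l1 p c d x.1 = k → ¬ Us H hn j ka kb (dn p x.1))
    (he : ∀ v : Vt n, v.1 = e → ¬ Us H hn j ka kb v ∧ ¬ Us H hn j ka kb (dn p v)) :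
    Sd g vv (nu H hn k x).1 = Sd g vv x.1 := by
  rw [← nbS H hn ka kb hS hvv k x h1 h2]
  change Sd g vv (nuf p e c d k x.1) = _
  by_cases h3 : (nb p c d k x.1).1 = e
  · have h4 := he _ h3
    unfold nb at h3 h4 ⊢
    unfold nuf
    split_ifs at h3 h4 ⊢ with h5
    · exact Sd_up H hn ka kb hS hvv _ h4.1
    · exact Sd_dn H hn ka kb hS hvv _ h4.2
  · rw [nuf_nb h3]

theorem orbS_a (hg : ∀ x : Vt n, x.1 ≠ e → x.1 = g → lv p c d x = j)
    (ha : ∀ w, ka (arc H hn (Or.inl rfl) w) ↔ ka w)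
    (he : ∀ v : Vt n, v.1 = e → ¬ Us H hn j ka kb v ∧ ¬ Us H hn j ka kb (dn p v))
    (w : Wt p e c d j) (hw : ¬ ka w) (x : Xt p e c d j)
    (hx : Orb (nu H hn j) (ta H j j) (em (Or.inl rfl) w) x) :
    ¬ ph H hn (Or.inl rfl) ka x ∧ Sd g vv x.1 = Sd g vv w.1 := by
  apply hx (fun x => ¬ ph H hn (Or.inl rfl) ka x ∧ Sd g vv x.1 = Sd g vv w.1)
  · rintro z ⟨h1, h2⟩
    refine ⟨by rw [ph_nu]; exact h1, ?_⟩
    rw [nuS H hn ka kb hS hvv j z (fun h => by rw [Us_up_a H hn ka kb z h]; exact h1)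
      (fun h => by rw [Us_dn_a H hn ka kb z h]; exact h1) he, h2]
  · rintro z ⟨h1, h2⟩
    refine ⟨by rw [ph_ta]; exact h1, ?_⟩
    by_cases h3 : lv p c d z.1 = j
    · rw [ta_pos H z h3, h2]
    · rw [ta_neg H z h3]
      change Sd g vv (sg z.1) = _
      rw [Sd_sg _ _ _ (fun h => h3 (hg z.1 z.2.1 h)), h2]
  · exact ⟨by rw [ph_em H hn _ ka ha]; exact hw, rfl⟩

theorem orbS_b (hg : ∀ x : Vt n, x.1 ≠ e → x.1 = g → lv p c d x = j)
    (hb : ∀ w, kb (arc H hn (Or.inr rfl) w) ↔ kb w)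
    (he : ∀ v : Vt n, v.1 = e → ¬ Us H hn j ka kb v ∧ ¬ Us H hn j ka kb (dn p v))
    (w : Wt p e c d j) (hw : ¬ kb w) (x : Xt p e c d (j + 1))
    (hx : Orb (nu H hn (j + 1)) (ta H j (j + 1)) (em (Or.inr rfl) w) x) :
    ¬ ph H hn (Or.inr rfl) kb x ∧ Sd g vv x.1 = Sd g vv w.1 := by
  apply hx (fun x => ¬ ph H hn (Or.inr rfl) kb x ∧ Sd g vv x.1 = Sd g vv w.1)
  · rintro z ⟨h1, h2⟩
    refine ⟨by rw [ph_nu]; exact h1, ?_⟩
    rw [nuS H hn ka kb hS hvv (j + 1) z (fun h => by rw [Us_up_b H hn ka kb z h]; exact h1)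
      (fun h => by rw [Us_dn_b H hn ka kb z h]; exact h1) he, h2]
  · rintro z ⟨h1, h2⟩
    refine ⟨by rw [ph_ta]; exact h1, ?_⟩
    by_cases h3 : lv p c d z.1 = j
    · rw [ta_pos H z h3, h2]
    · rw [ta_neg H z h3]
      change Sd g vv (sg z.1) = _
      rw [Sd_sg _ _ _ (fun h => h3 (hg z.1 z.2.1 h)), h2]
  · exact ⟨by rw [ph_em H hn _ kb hb]; exact hw, rfl⟩

/-- the value at a vertex of an untouched member -/
theorem Sd_lev (l : ℕ) (hl1 : l ≠ j) (hl2 : l ≠ j + 1) (v0 : ZMod 2)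
    (h0 : (∀ i, c i = l → s i = v0) ∧ ∀ i, d i = l → t i = v0) (v : Vt n)
    (hv : l1 p c d v = l ∨ l2 p c d v = l) : Sd g vv v = v0 := by
  have key : ∀ w : Vt n, l2 p c d w = l → sv p s t w = v0 := by
    rintro ⟨i, _ | _⟩ hw
    · exact h0.1 i hw
    · exact h0.2 (p i) hw
  rcases hv with hv | hv
  · rw [Sd_dn1 H hn ka kb hS hvv v (Us_none H hn ka kb _ (by rw [l2_dn]; omega)
      (by rw [l2_dn]; omega))]
    exact key _ (by rw [l2_dn]; exact hv)
  · rw [Sd_up1 H hn ka kb hS hvv v (Us_none H hn ka kb _ (by omega) (by omega))]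
    exact key _ hv

end

theorem untouched (H : ChainCol p e m c d) (hn : 3 ≤ n) {j : ℕ} (ka kb : Wt p e c d j → Prop)
    (l : ℕ) (hl1 : l ≠ j) (hl2 : l ≠ j + 1) :
    Untouched c d (UA H hn ka kb) (UB H hn ka kb) l := by
  constructor
  · intro i hi
    rw [UA_zero]
    exact Us_none H hn ka kb _ (by change c i ≠ j; omega) (by change c i ≠ j + 1; omega)
  · intro i hi
    rw [UB_zero]
    have : l2 p c d ((p.symm i, true) : Vt n) = d i := by simp [l2]
    exact Us_none H hn ka kb _ (by omega) (by omega)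

theorem nonrem (hC : Crit p) (H : ChainCol p e m c d) (hn : 3 ≤ n) {j : ℕ} (hjm : j < m)
    (cP : ∀ U : Wt p e c d j → Prop, (∀ v, U v → U (sw H v)) →
      (∀ v, U v → U (arc H hn (Or.inl rfl : j = j ∨ j = j + 1) v)) → (∃ v, U v) → ∀ v, U v)
    (cR : ∀ U : Wt p e c d j → Prop, (∀ v, U v → U (sw H v)) →
      (∀ v, U v → U (arc H hn (Or.inr rfl : j + 1 = j ∨ j + 1 = j + 1) v)) → (∃ v, U v) →
      ∀ v, U v)
    (ka kb : Wt p e c d j → Prop) (hK : Alt (sys H hn j cP cR) ka kb) (hne : ∃ w, ka w ∨ kb w)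
    (hav : Avoid ka kb m) : Nonrem (sys H hn j cP cR) ka kb := by
  classical
  have : NeZero n := ⟨by omega⟩
  have hm : 1 ≤ m := by omega
  have ha : ∀ w, ka (arc H hn (Or.inl rfl) w) ↔ ka w := hK.ha
  have hb : ∀ w, kb (arc H hn (Or.inr rfl) w) ↔ kb w := hK.hb
  have h1 := hK.one
  have hs : ∀ w, (ka (sw H w) ∨ kb (sw H w)) ↔ (ka w ∨ kb w) := hK.hs
  have hA := toAlt H hn ka kb ha hb h1 hs hjm hav
  obtain ⟨g, s, t, hS⟩ := hC _ _ hA (exists_used H hn ka kb ha hb h1 hs hne)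
  choose f hf using hS.2.2
  set vv : ZMod n → ZMod 2 := fun i => if h : i ≠ g then f i h else 0 with hvvd
  have hvv : ∀ i, i ≠ g → s (i - 1) = (1 + UA H hn ka kb (i - 1)) * vv i ∧
      s i = (1 + UA H hn ka kb i) * vv i ∧
      t (p i - 1) = (1 + UB H hn ka kb (p i - 1)) * vv i ∧
      t (p i) = (1 + UB H hn ka kb (p i)) * vv i := by
    intro i hi
    have e1 : vv i = f i hi := by simp only [hvvd]; rw [dif_pos hi]
    rw [e1]
    exact hf i hi
  have he := Us_e H hn ka kb ha hb hjm hav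
  have hg : ∀ x : Vt n, x.1 ≠ e → x.1 = g → lv p c d x = j := by
    intro x hx hxg
    by_contra hlv
    have hge : g ≠ e := hxg ▸ hx
    have h2 := (loc' H x hx).1
    have h5 : l1 p c d x = (if x.2 then d (p g - 1) else c (g - 1)) ∧
        l2 p c d x = (if x.2 then d (p g) else c g) := by
      rw [← hxg]; exact ⟨rfl, rfl⟩
    rcases Nat.lt_or_gt_of_ne hlv with h3 | h3
    · have h4 := not_mem_of_untouched H hm hS
        (untouched H hn ka kb (lv p c d x) (by omega) (by omega)) hge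
      rcases x.2.eq_false_or_eq_true with h6 | h6 <;> rw [h6] at h5 <;> simp at h5 <;> omega
    · have h4 := not_mem_of_untouched H hm hS
        (untouched H hn ka kb (lv p c d x + 1) (by omega) (by omega)) hge
      rcases x.2.eq_false_or_eq_true with h6 | h6 <;> rw [h6] at h5 <;> simp at h5 <;> omega
  -- values on the low and on the high side
  have hlow : ∀ y : Vt n, y.1 ≠ e → lv p c d y + 1 = j → Sd g vv y = Sd g vv (e, false) := by
    intro y hy hyl
    obtain ⟨v0, hv0⟩ := const_range H hm hS (k := 0) (l := lv p c d y) (Nat.zero_le _) (by omega)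
      (fun l' _ hl => untouched H hn ka kb l' (by omega) (by omega))
    have h2 := (loc' H y hy).1
    rw [Sd_lev H hn ka kb hS hvv (lv p c d y) (by omega) (by omega) v0
        (hv0 _ (Nat.zero_le _) le_rfl) y (by omega),
      Sd_lev H hn ka kb hS hvv 0 (by omega) (by omega) v0 (hv0 _ le_rfl (Nat.zero_le _)) (e, false)
        (Or.inr H.cx.2)]
  have hhigh : ∀ y : Vt n, y.1 ≠ e → lv p c d y = j + 1 → Sd g vv y = Sd g vv (e, true) := by
    intro y hy hyl
    have h2 := (loc' H y hy)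
    obtain ⟨v0, hv0⟩ := const_range H hm hS (k := j + 2) (l := m) (by omega) le_rfl
      (fun l' hl _ => untouched H hn ka kb l' (by omega) (by omega))
    rw [Sd_lev H hn ka kb hS hvv (j + 2) (by omega) (by omega) v0
        (hv0 _ le_rfl (by omega)) y (by omega),
      Sd_lev H hn ka kb hS hvv m (by omega) (by omega) v0 (hv0 _ (by omega) le_rfl) (e, true)
        (Or.inr H.cy.2)]
  refine ⟨fun w => Sd g vv w.1, Sd g vv (e, false), Sd g vv (e, true), ?_, ?_, ?_⟩
  · intro w hw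
    refine ⟨(orbS_a H hn ka kb hS hvv hg ha he w hw _ (arc_orb H hn (Or.inl rfl) w)).2, ?_⟩
    intro hAt
    have hph : ¬ ph H hn (Or.inl rfl) ka (em (Or.inl rfl) w) := by
      rw [ph_em H hn _ ka ha]; exact hw
    have h3 := nbS H hn ka kb hS hvv j (em (Or.inl rfl) w)
      (fun h => by rw [Us_up_a H hn ka kb _ h]; exact hph)
      (fun h => by rw [Us_dn_a H hn ka kb _ h]; exact hph)
    change Sd g vv (nb p c d j w.1) = Sd g vv w.1 at h3
    change Sd g vv w.1 = _
    rw [← h3]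
    have h4 : l1 p c d (nb p c d j w.1) = j ∨ l2 p c d (nb p c d j w.1) = j := by
      rcases lev_cases H (k := j) w.1 w.2.1 (Or.inl w.2.2) with h5 | h5
      · left; unfold nb; rw [if_pos h5.1, l1_up]; exact h5.1
      · right; unfold nb; rw [if_neg h5.2, l2_dn]; exact h5.1
    by_cases h5 : (nb p c d j w.1).1 = e
    · have h6 := l1_e H _ h5
      have h7 : (nb p c d j w.1).2 = false := by
        by_contra h8
        have h9 : (nb p c d j w.1).2 = true := by simpa using h8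
        rw [h9, if_pos rfl] at h6
        omega
      congr 1
      exact Prod.ext h5 h7
    · have h6 := mem_of_l H _ h5 h4
      have h7 : lv p c d (nb p c d j w.1) ≠ j := fun h => hAt ⟨h5, h⟩
      exact hlow _ h5 (by omega)
  · intro w hw
    refine ⟨(orbS_b H hn ka kb hS hvv hg hb he w hw _ (arc_orb H hn (Or.inr rfl) w)).2, ?_⟩
    intro hAt
    have hph : ¬ ph H hn (Or.inr rfl) kb (em (Or.inr rfl) w) := by
      rw [ph_em H hn _ kb hb]; exact hw
    have h3 := nbS H hn ka kb hS hvv (j + 1) (em (Or.inr rfl) w)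
      (fun h => by rw [Us_up_b H hn ka kb _ h]; exact hph)
      (fun h => by rw [Us_dn_b H hn ka kb _ h]; exact hph)
    change Sd g vv (nb p c d (j + 1) w.1) = Sd g vv w.1 at h3
    change Sd g vv w.1 = _
    rw [← h3]
    have h4 : l1 p c d (nb p c d (j + 1) w.1) = j + 1 ∨ l2 p c d (nb p c d (j + 1) w.1) = j + 1 := by
      rcases lev_cases H (k := j + 1) w.1 w.2.1 (Or.inr (by rw [w.2.2])) with h5 | h5
      · left; unfold nb; rw [if_pos h5.1, l1_up]; exact h5.1
      · right; unfold nb; rw [if_neg h5.2, l2_dn]; exact h5.1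
    by_cases h5 : (nb p c d (j + 1) w.1).1 = e
    · have h6 := l1_e H _ h5
      have h7 : (nb p c d (j + 1) w.1).2 = true := by
        by_contra h8
        have h9 : (nb p c d (j + 1) w.1).2 = false := by simpa using h8
        rw [h9] at h6
        simp at h6
        omega
      congr 1
      exact Prod.ext h5 h7
    · have h6 := mem_of_l H _ h5 h4
      have h7 : lv p c d (nb p c d (j + 1) w.1) ≠ j := fun h => hAt ⟨h5, h⟩
      exact hhigh _ h5 (by omega)
  · by_cases hge : g = e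
    · left
      subst hge
      refine ⟨by rw [Sd_g1, Sd_g2]; exact one_ne_zero, ?_⟩
      intro w
      exact Sd_sg _ _ _ w.2.1
    · right
      have hge' : e ≠ g := fun h => hge h.symm
      refine ⟨by rw [Sd_ne _ _ _ hge', Sd_ne _ _ _ hge'], ⟨(g, false), hge, hg (g, false) hge rfl⟩, ?_⟩
      have h2 := (One_W H hn ka kb ha hb h1 ⟨(g, false), hge, hg (g, false) hge rfl⟩).2
      have h3 : ¬ Us H hn j ka kb (g, false) := (UA_zero H hn ka kb g).1 hS.1.2.1
      have h4 : ¬ Us H hn j ka kb (dn p (g, false)) := by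
        have e1 : dn p ((g, false) : Vt n) = (g - 1, false) := by simp [dn]
        rw [e1]
        exact (UA_zero H hn ka kb (g - 1)).1 hS.1.1
      have h5 : ¬ (_ ∨ _) := fun h => (not_or.2 ⟨h3, h4⟩) (h2.2 h)
      rw [not_or] at h5
      refine ⟨h5.1, h5.2, ?_, ?_⟩
      · change Sd g vv (g, true) ≠ Sd g vv (g, false)
        rw [Sd_g1, Sd_g2]
        exact zero_ne_one
      · intro w hw1 hw2
        apply Sd_sg
        intro h6
        obtain ⟨⟨i, b⟩, hi⟩ := w
        simp only at h6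
        subst h6
        cases b
        · exact hw1 rfl
        · exact hw2 rfl

end Pool.Agent.H57.PSys
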