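import Mathlib
import Pool.Agent.H57.PSys.Fin
import Pool.Agent.H98.PS.Conn

set_option autoImplicit false

/-!
The pair system of two consecutive members of the chain.
-/

namespace Pool.Agent.H57.PSys

open Pool.Agent.H64.Pent hiding Alt
open Pool.Agent.H77.GC

variable {n : ℕ} {p : Equiv.Perm (ZMod n)} {e : ZMod n} {m : ℕ} {c d : ZMod n → ℕ}

/-- the pair system of the members `j`, `j + 1` of the chain -/
noncomputable def psys (H : ChainCol p e m c d) (hn : 3 ≤ n) {j : ℕ} (hjm : j < m) :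
    Sys (Wt p e c d j) :=
  sys H hn j
    (fun U h1 h2 h3 => Pool.Agent.H98.PS.arc_conn H hn (Or.inl rfl) hjm U h1 h2 h3)
    (fun U h1 h2 h3 => Pool.Agent.H98.PS.arc_conn H hn (Or.inr rfl) hjm U h1 h2 h3)

theorem psys_nonrem (hC : Crit p) (H : ChainCol p e m c d) (hn : 3 ≤ n) {j : ℕ} (hjm : j < m)
    (ka kb : Wt p e c d j → Prop) (hK : Alt (psys H hn hjm) ka kb) (hne : ∃ w, ka w ∨ kb w)
    (hav : Avoid ka kb m) : Nonrem (psys H hn hjm) ka kb :=
  nonrem hC H hn hjm _ _ ka kb hK hne hav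

end Pool.Agent.H57.PSys
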